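import Mathlib

/-!
# The counting lower bound

If `a n ≥ n ^ k` for all `n ≥ 1` and `k ≥ 2`, then infinitely many `m` are no sums of at most `k`
terms `a n` (repetitions allowed).
-/

set_option autoImplicit false

namespace Pool.Agent.helper306_pert

open Filter Topology

lemma multichoose_bound (k : ℕ) (hk : 2 ≤ k) (B : ℕ) :
    ∀ᶠ N : ℕ in atTop, Nat.multichoose N k + B < N ^ k := by
  have h1 : Tendsto (fun N : ℕ => (1 + (k : ℝ) / N) ^ k) atTop (𝓝 ((1 + 0) ^ k)) :=
    (tendsto_const_nhds.add (tendsto_const_div_atTop_nhds_zero_nat (k : ℝ))).pow k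
  rw [add_zero, one_pow] at h1
  have h2 : Tendsto (fun N : ℕ => (N : ℝ) ^ k) atTop atTop :=
    (tendsto_pow_atTop (by omega)).comp tendsto_natCast_atTop_atTop
  filter_upwards [h1.eventually (eventually_lt_nhds (show (1 : ℝ) < 3 / 2 by norm_num)),
    h2.eventually_gt_atTop (4 * B), eventually_ge_atTop 1] with N hN1 hN2 hN3
  have hN0 : (0 : ℝ) < N := by exact_mod_cast hN3
  have h3 : (Nat.multichoose N k : ℝ) ≤ ((N + k - 1 : ℕ) : ℝ) ^ k / (k.factorial : ℝ) := by
    rw [Nat.multichoose_eq]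
    exact Nat.choose_le_pow_div k (N + k - 1)
  have h4 : ((N + k - 1 : ℕ) : ℝ) ^ k ≤ (1 + (k : ℝ) / N) ^ k * (N : ℝ) ^ k := by
    rw [← mul_pow]
    refine pow_le_pow_left₀ (by positivity) ?_ k
    have h5 : (1 + (k : ℝ) / N) * N = N + k := by field_simp
    rw [h5]
    have : N + k - 1 ≤ N + k := Nat.sub_le _ _
    exact_mod_cast this
  have h6 : (2 : ℝ) ≤ (k.factorial : ℝ) := by
    have : Nat.factorial 2 ≤ k.factorial := Nat.factorial_le hk
    have h7 : Nat.factorial 2 = 2 := rfl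
    rw [h7] at this
    exact_mod_cast this
  have h8 : (Nat.multichoose N k : ℝ) ≤ 3 / 4 * (N : ℝ) ^ k := by
    calc (Nat.multichoose N k : ℝ) ≤ ((N + k - 1 : ℕ) : ℝ) ^ k / (k.factorial : ℝ) := h3
      _ ≤ ((1 + (k : ℝ) / N) ^ k * (N : ℝ) ^ k) / 2 := by gcongr
      _ ≤ (3 / 2 * (N : ℝ) ^ k) / 2 := by gcongr
      _ = 3 / 4 * (N : ℝ) ^ k := by ring
  have h9 : (Nat.multichoose N k : ℝ) + B < (N : ℝ) ^ k := by linarith
  exact_mod_cast h9

theorem lower (k : ℕ) (hk : 2 ≤ k) (a : ℕ → ℕ) (ha : ∀ n, 1 ≤ n → n ^ k ≤ a n) :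
    ∃ᶠ m : ℕ in atTop, ¬ ∃ S : Multiset ℕ, (∀ n ∈ S, 1 ≤ n) ∧ S.card ≤ k ∧
      (S.map a).sum = m := by
  classical
  rw [frequently_atTop]
  intro B
  obtain ⟨N, hN, hN1⟩ := ((multichoose_bound k hk B).and (eventually_ge_atTop 1)).exists
  have : NeZero N := ⟨by omega⟩
  set w : Fin N → ℕ := fun i => if i = 0 then 0 else a i with hw
  set F : Sym (Fin N) k → ℕ := fun σ => ((σ : Multiset (Fin N)).map w).sum with hF
  set Img : Finset ℕ := Finset.univ.image F with hImg
  have hcard : Img.card ≤ Nat.multichoose N k := by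
    calc Img.card ≤ (Finset.univ : Finset (Sym (Fin N) k)).card := Finset.card_image_le
      _ = Nat.multichoose N k := by
          rw [Finset.card_univ, Sym.card_sym_eq_multichoose, Fintype.card_fin]
  have hex : ∃ m ∈ Finset.Ico B (N ^ k), m ∉ Img := by
    by_contra hcon
    push Not at hcon
    have h1 : Finset.Ico B (N ^ k) ⊆ Img := fun m hm => hcon m hm
    have h2 := Finset.card_le_card h1
    rw [Nat.card_Ico] at h2
    omega
  obtain ⟨m, hm, hmI⟩ := hex
  obtain ⟨hm1, hm2⟩ := Finset.mem_Ico.1 hm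
  refine ⟨m, hm1, ?_⟩
  rintro ⟨S, hS1, hSc, hSm⟩
  apply hmI
  have hlt : ∀ n ∈ S, n < N := by
    intro n hn
    have h1 : a n ≤ m := by
      rw [← hSm]
      exact Multiset.single_le_sum (fun _ _ => Nat.zero_le _) _ (Multiset.mem_map_of_mem a hn)
    have h2 : n ^ k < N ^ k := lt_of_le_of_lt ((ha n (hS1 n hn)).trans h1) hm2
    exact lt_of_pow_lt_pow_left₀ k (Nat.zero_le _) h2
  set f : ℕ → Fin N := fun n => if h : n < N then ⟨n, h⟩ else 0 with hf
  set T : Multiset (Fin N) := S.map f + Multiset.replicate (k - S.card) 0 with hT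
  have hTc : T.card = k := by
    rw [hT, Multiset.card_add, Multiset.card_map, Multiset.card_replicate]
    omega
  have hTs : (T.map w).sum = m := by
    rw [hT, Multiset.map_add, Multiset.sum_add, Multiset.map_replicate, Multiset.sum_replicate,
      Multiset.map_map]
    have h0 : w 0 = 0 := by simp [hw]
    rw [h0, smul_zero, add_zero, ← hSm]
    congr 1
    refine Multiset.map_congr rfl fun n hn => ?_
    have h1 := hlt n hn
    have h2 := hS1 n hn
    simp only [Function.comp_apply, hf, h1, dif_pos, hw]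
    have h3 : (⟨n, h1⟩ : Fin N) ≠ 0 := by
      intro h
      have := congrArg Fin.val h
      simp at this
      omega
    simp [h3]
  refine Finset.mem_image.2 ⟨⟨T, hTc⟩, Finset.mem_univ _, ?_⟩
  exact hTs

end Pool.Agent.helper306_pert
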