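import Mathlib

/-!
# Random perturbations and covering lengths

`SumsOf α u I c` is the set of sums of at most `c` distinct terms `α n + u n` with index in `I`, and
`Cov B M m L` says that `B` meets every interval `[y - L, y]` with `M ≤ y ≤ m`. If the `u n` are
independent and uniform on `[0, h n)`, then one more random summand reduces the covering length from
`L` to `L / K`, if the number of available indices is large compared with `K`.
-/

set_option autoImplicit false

namespace Pool.Agent.helper306_pert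

open MeasureTheory ProbabilityTheory

/-- The sums of at most `c` distinct terms `α n + u n` with `n ∈ I`. -/
def SumsOf (α u : ℕ → ℕ) (I : Finset ℕ) (c : ℕ) : Set ℕ :=
  {b | ∃ S ⊆ I, S.card ≤ c ∧ ∑ n ∈ S, (α n + u n) = b}

/-- `B` meets every interval `[y - L, y]` with `M ≤ y ≤ m`. -/
def Cov (B : Set ℕ) (M m L : ℕ) : Prop :=
  ∀ y, M ≤ y → y ≤ m → ∃ b ∈ B, b ≤ y ∧ y ≤ b + L

theorem sumsOf_congr (α : ℕ → ℕ) (I : Finset ℕ) (c : ℕ) (u u' : ℕ → ℕ)
    (h : ∀ n ∈ I, u n = u' n) : SumsOf α u I c = SumsOf α u' I c := by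
  have key : ∀ v v' : ℕ → ℕ, (∀ n ∈ I, v n = v' n) → SumsOf α v I c ⊆ SumsOf α v' I c := by
    rintro v v' hv b ⟨S, hS, hc, hb⟩
    refine ⟨S, hS, hc, ?_⟩
    rw [← hb]
    exact Finset.sum_congr rfl fun n hn => by rw [hv n (hS hn)]
  exact Set.Subset.antisymm (key u u' h) (key u' u fun n hn => (h n hn).symm)

open Classical in
theorem count_good (B : Set ℕ) (M m L L' : ℕ) (hB : Cov B M m L) (y h : ℕ)
    (hy1 : M + h ≤ y) (hy2 : y ≤ m) :
    (L' + 1) * (h / (L + L' + 1)) ≤
      {a ∈ Finset.range h | ∃ b ∈ B, b + a ≤ y ∧ y ≤ b + a + L'}.card := by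
  set D := L + L' + 1 with hD
  have hstep : ∀ j, j < h / D → (j + 1) * D ≤ h := by
    intro j hj
    calc (j + 1) * D ≤ (h / D) * D := Nat.mul_le_mul_right _ hj
      _ ≤ h := Nat.div_mul_le_self h D
  have hex : ∀ j, j < h / D → ∃ b ∈ B, b + (j * D + L') ≤ y ∧ y ≤ b + (j * D + L') + L := by
    intro j hj
    have h1 := hstep j hj
    have h2 : j * D + D ≤ h := by
      have : (j + 1) * D = j * D + D := by ring
      omega
    obtain ⟨b, hb, hb1, hb2⟩ := hB (y - (j * D + L')) (by omega) (by omega)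
    exact ⟨b, hb, by omega, by omega⟩
  choose! b hbB hb1 hb2 using hex
  have hcard : ((Finset.range (h / D)) ×ˢ (Finset.range (L' + 1))).card =
      (L' + 1) * (h / D) := by
    rw [Finset.card_product, Finset.card_range, Finset.card_range, mul_comm]
  rw [← hcard]
  refine Finset.card_le_card_of_injOn (fun p => (y - b p.1 - L') + p.2) ?_ ?_
  · rintro ⟨j, l⟩ hp
    simp only [Finset.coe_product, Finset.coe_range, Set.mem_prod, Set.mem_Iio] at hp
    obtain ⟨hj, hl⟩ := hp
    have h1 := hstep j hj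
    have h2 : (j + 1) * D = j * D + D := by ring
    have h3 := hb1 j hj
    have h4 := hb2 j hj
    simp only [Finset.coe_filter, Finset.mem_range, Set.mem_ofPred_eq]
    refine ⟨by omega, b j, hbB j hj, by omega, by omega⟩
  · rintro ⟨j, l⟩ hp ⟨j', l'⟩ hp' heq
    simp only [Finset.coe_product, Finset.coe_range, Set.mem_prod, Set.mem_Iio] at hp hp'
    obtain ⟨hj, hl⟩ := hp
    obtain ⟨hj', hl'⟩ := hp'
    have h3 := hb1 j hj
    have h4 := hb2 j hj
    have h3' := hb1 j' hj'
    have h4' := hb2 j' hj'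
    simp only at heq
    have hDpos : 0 < D := by omega
    have hdiv : ((y - b j - L') + l) / D = j := by
      rw [Nat.div_eq_iff hDpos]
      constructor
      · omega
      · omega
    have hdiv' : ((y - b j' - L') + l') / D = j' := by
      rw [Nat.div_eq_iff hDpos]
      constructor
      · omega
      · omega
    have hjj : j = j' := by rw [← hdiv, ← hdiv', heq]
    subst hjj
    have : l = l' := by omega
    rw [this]

variable {Ω : Type*} [MeasurableSpace Ω]

/-- Conditioning on the coordinates in `I`. -/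
theorem step_prob (P : Measure Ω) [IsProbabilityMeasure P] (U : ℕ → Ω → ℕ)
    (hU : ∀ n, Measurable (U n)) (hind : iIndepFun U P) (I X : Finset ℕ) (hd : Disjoint I X)
    (E : (ℕ → ℕ) → Prop) (Bad : (ℕ → ℕ) → ℕ → Set ℕ)
    (hE : ∀ u u' : ℕ → ℕ, (∀ n ∈ I, u n = u' n) → E u → E u')
    (hBad : ∀ u u' : ℕ → ℕ, (∀ n ∈ I, u n = u' n) → Bad u = Bad u') (p : ENNReal)
    (hp : ∀ u, E u → ∀ x ∈ X, P {ω | U x ω ∈ Bad u x} ≤ p) :
    P {ω | E (fun n => U n ω) ∧ ∀ x ∈ X, U x ω ∈ Bad (fun n => U n ω) x} ≤ p ^ X.card := by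
  classical
  let ext : (I → ℕ) → ℕ → ℕ := fun v n => if h : n ∈ I then v ⟨n, h⟩ else 0
  let res : Ω → (I → ℕ) := fun ω n => U n ω
  have hres : Measurable res := measurable_pi_lambda _ fun n => hU n
  have hext : ∀ ω, ∀ n ∈ I, ext (res ω) n = U n ω := by
    intro ω n hn
    simp only [ext, res, hn, dif_pos]
  set T : (I → ℕ) → Set Ω := fun v =>
    {ω | res ω = v} ∩ {ω | E (ext v) ∧ ∀ x ∈ X, U x ω ∈ Bad (ext v) x} with hT
  have hsub : {ω | E (fun n => U n ω) ∧ ∀ x ∈ X, U x ω ∈ Bad (fun n => U n ω) x} ⊆ ⋃ v, T v := by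
    rintro ω ⟨h1, h2⟩
    refine Set.mem_iUnion.2 ⟨res ω, rfl, ?_, ?_⟩
    · exact hE _ _ (fun n hn => (hext ω n hn).symm) h1
    · intro x hx
      rw [hBad _ _ (fun n hn => hext ω n hn)]
      exact h2 x hx
  have hTle : ∀ v, P (T v) ≤ P {ω | res ω = v} * p ^ X.card := by
    intro v
    by_cases hEv : E (ext v)
    · set A : ℕ → Set ℕ := fun n => if n ∈ I then {ext v n} else Bad (ext v) n with hA
      have h1 : T v ⊆ ⋂ n ∈ I ∪ X, U n ⁻¹' A n := by
        rintro ω ⟨h1, -, h3⟩
        simp only [Set.mem_iInter, Finset.mem_union, Set.mem_preimage]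
        intro n hn
        by_cases hnI : n ∈ I
        · simp only [hA, hnI, if_true, Set.mem_singleton_iff]
          have := hext ω n hnI
          rw [← this]
          simp only [Set.mem_ofPred_eq] at h1
          rw [h1]
        · simp only [hA, hnI, if_false]
          exact h3 n (hn.resolve_left hnI)
      have h2 : P (⋂ n ∈ I ∪ X, U n ⁻¹' A n) = ∏ n ∈ I ∪ X, P (U n ⁻¹' A n) :=
        hind.measure_inter_preimage_eq_mul (I ∪ X) (fun n _ => MeasurableSet.of_discrete)
      have h3 : P (⋂ n ∈ I, U n ⁻¹' A n) = ∏ n ∈ I, P (U n ⁻¹' A n) :=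
        hind.measure_inter_preimage_eq_mul I (fun n _ => MeasurableSet.of_discrete)
      have h4 : (⋂ n ∈ I, U n ⁻¹' A n) ⊆ {ω | res ω = v} := by
        intro ω hω
        simp only [Set.mem_iInter, Set.mem_preimage] at hω
        simp only [Set.mem_ofPred_eq]
        funext n
        have := hω n n.2
        simp only [hA, n.2, if_true, Set.mem_singleton_iff] at this
        simp only [res]
        rw [this]
        simp only [ext, n.2, dif_pos, Subtype.coe_eta]
      calc P (T v) ≤ P (⋂ n ∈ I ∪ X, U n ⁻¹' A n) := measure_mono h1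
        _ = (∏ n ∈ I, P (U n ⁻¹' A n)) * ∏ n ∈ X, P (U n ⁻¹' A n) := by
            rw [h2, Finset.prod_union hd]
        _ ≤ P {ω | res ω = v} * p ^ X.card := by
            refine mul_le_mul' ?_ ?_
            · rw [← h3]; exact measure_mono h4
            · rw [← Finset.prod_const]
              refine Finset.prod_le_prod' fun n hn => ?_
              have hnI : n ∉ I := fun h => (Finset.disjoint_left.1 hd h) hn
              simp only [hA, hnI, if_false]
              exact hp _ hEv n hn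
    · have : T v = ∅ := by
        ext ω
        simp only [hT, Set.mem_inter_iff, Set.mem_ofPred_eq, Set.mem_empty_iff_false, iff_false]
        tauto
      rw [this, measure_empty]
      exact zero_le
  calc P {ω | E (fun n => U n ω) ∧ ∀ x ∈ X, U x ω ∈ Bad (fun n => U n ω) x}
      ≤ P (⋃ v, T v) := measure_mono hsub
    _ ≤ ∑' v, P (T v) := measure_iUnion_le _
    _ ≤ ∑' v, P {ω | res ω = v} * p ^ X.card := ENNReal.tsum_le_tsum hTle
    _ = (∑' v, P {ω | res ω = v}) * p ^ X.card := ENNReal.tsum_mul_right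
    _ = P (⋃ v, {ω | res ω = v}) * p ^ X.card := by
        rw [measure_iUnion]
        · intro v v' hvv'
          refine Set.disjoint_left.2 fun ω h1 h2 => hvv' ?_
          simp only [Set.mem_ofPred_eq] at h1 h2
          rw [← h1, h2]
        · intro v
          exact hres (measurableSet_singleton v)
    _ ≤ 1 * p ^ X.card := mul_le_mul' prob_le_one le_rfl
    _ = p ^ X.card := one_mul _

open Classical in
theorem prob_bad (P : Measure Ω) [IsProbabilityMeasure P] (V : Ω → ℕ) (hV : Measurable V) (h : ℕ)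
    (hh : 0 < h) (hunif : ∀ j < h, P {ω | V ω = j} = (h : ENNReal)⁻¹) (Bad : Set ℕ) (g : ℕ)
    (hg : g ≤ {a ∈ Finset.range h | a ∉ Bad}.card) :
    P {ω | V ω ∈ Bad} ≤ 1 - (g : ENNReal) / h := by
  set G := {a ∈ Finset.range h | a ∉ Bad} with hG
  have h1 : P (⋃ a ∈ G, {ω | V ω = a}) = (G.card : ENNReal) / h := by
    rw [measure_biUnion_finset]
    · rw [Finset.sum_congr rfl (fun a ha => hunif a (Finset.mem_range.1 (Finset.mem_filter.1 ha).1))]
      rw [Finset.sum_const, nsmul_eq_mul, div_eq_mul_inv]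
    · intro a _ b _ hab
      refine Set.disjoint_left.2 fun ω h1 h2 => hab ?_
      simp only [Set.mem_ofPred_eq] at h1 h2
      rw [← h1, h2]
    · intro a _
      exact hV (measurableSet_singleton a)
  have h2 : {ω | V ω ∈ Bad} ⊆ (⋃ a ∈ G, {ω | V ω = a})ᶜ := by
    intro ω hω hω'
    simp only [Set.mem_iUnion, Set.mem_ofPred_eq] at hω'
    obtain ⟨a, ha, hVa⟩ := hω'
    have := (Finset.mem_filter.1 ha).2
    rw [← hVa] at this
    exact this hω
  have hmeas : MeasurableSet (⋃ a ∈ G, {ω | V ω = a}) := by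
    refine Finset.measurableSet_biUnion _ fun a _ => ?_
    exact hV (measurableSet_singleton a)
  calc P {ω | V ω ∈ Bad} ≤ P (⋃ a ∈ G, {ω | V ω = a})ᶜ := measure_mono h2
    _ = 1 - P (⋃ a ∈ G, {ω | V ω = a}) := by
        rw [measure_compl hmeas (measure_ne_top _ _), measure_univ]
    _ = 1 - (G.card : ENNReal) / h := by rw [h1]
    _ ≤ 1 - (g : ENNReal) / h := by
        refine tsub_le_tsub_left ?_ 1
        gcongr

theorem ratio_bound (L L' K h : ℕ) (hL : L' ≤ L) (hK : L + 1 ≤ K * (L' + 1))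
    (hh : L + L' + 1 ≤ h) :
    1 - (((L' + 1) * (h / (L + L' + 1)) : ℕ) : ENNReal) / h ≤
      ENNReal.ofReal (1 - 1 / (4 * K)) := by
  have hKpos : 0 < K := by
    rcases Nat.eq_zero_or_pos K with h0 | h0
    · subst h0; omega
    · exact h0
  have hhpos : 0 < h := by omega
  set D := L + L' + 1 with hD
  set J := h / D with hJ
  have hDpos : 0 < D := by omega
  have h1 : 1 ≤ J := (Nat.one_le_div_iff hDpos).2 hh
  have h2 : h < D * J + D := by
    have := Nat.lt_div_mul_add hDpos (a := h)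
    rw [mul_comm D J]; omega
  have h3 : h ≤ 4 * K * ((L' + 1) * J) := by
    calc h ≤ D * J + D * 1 := by omega
      _ ≤ D * J + D * J := by gcongr
      _ = 2 * D * J := by ring
      _ ≤ 2 * (2 * (L + 1)) * J := by
          refine Nat.mul_le_mul_right _ ?_
          omega
      _ ≤ 2 * (2 * (K * (L' + 1))) * J := by gcongr
      _ = 4 * K * ((L' + 1) * J) := by ring
  have h4 : (1 : ℝ) / (4 * K) ≤ (((L' + 1) * J : ℕ) : ℝ) / h := by
    rw [div_le_div_iff₀ (by positivity) (by positivity)]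
    have : ((h : ℕ) : ℝ) ≤ ((4 * K * ((L' + 1) * J) : ℕ) : ℝ) := by exact_mod_cast h3
    push_cast at this ⊢
    nlinarith
  have h5 : (((L' + 1) * J : ℕ) : ENNReal) / h = ENNReal.ofReal ((((L' + 1) * J : ℕ) : ℝ) / h) := by
    rw [ENNReal.ofReal_div_of_pos (by positivity), ENNReal.ofReal_natCast, ENNReal.ofReal_natCast]
  rw [h5, ← ENNReal.ofReal_one, ← ENNReal.ofReal_sub _ (by positivity)]
  exact ENNReal.ofReal_le_ofReal (by linarith)

theorem stage (P : Measure Ω) [IsProbabilityMeasure P] (U : ℕ → Ω → ℕ)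
    (hU : ∀ n, Measurable (U n)) (hind : iIndepFun U P) (α h : ℕ → ℕ) (I X : Finset ℕ)
    (hd : Disjoint I X)
    (hunif : ∀ x ∈ X, ∀ j < h x, P {ω | U x ω = j} = (h x : ENNReal)⁻¹)
    (c M m W L L' K : ℕ) (hL : L' ≤ L) (hK : L + 1 ≤ K * (L' + 1))
    (hX : ∀ x ∈ X, α x + h x ≤ W ∧ L + L' + 1 ≤ h x) :
    P {ω | Cov (SumsOf α (fun n => U n ω) I c) M m L ∧
        ¬ Cov (SumsOf α (fun n => U n ω) (I ∪ X) (c + 1)) (M + W) m L'} ≤
      (m + 1) * ENNReal.ofReal (1 - 1 / (4 * K)) ^ X.card := by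
  classical
  set E : (ℕ → ℕ) → Prop := fun u => Cov (SumsOf α u I c) M m L with hE
  set Bad : ℕ → (ℕ → ℕ) → ℕ → Set ℕ := fun y u x =>
    {a | ¬ ∃ b ∈ SumsOf α u I c, b + a ≤ y - α x ∧ y - α x ≤ b + a + L'} with hBad
  have hprob : ∀ y ∈ Finset.Icc (M + W) m,
      P {ω | E (fun n => U n ω) ∧ ∀ x ∈ X, U x ω ∈ Bad y (fun n => U n ω) x} ≤
        ENNReal.ofReal (1 - 1 / (4 * K)) ^ X.card := by
    intro y hy
    obtain ⟨hy1, hy2⟩ := Finset.mem_Icc.1 hy
    refine step_prob P U hU hind I X hd E (Bad y) ?_ ?_ _ ?_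
    · intro u u' huu hEu
      simp only [hE] at hEu ⊢
      rw [← sumsOf_congr α I c u u' huu]
      exact hEu
    · intro u u' huu
      simp only [hBad]
      rw [sumsOf_congr α I c u u' huu]
    · intro u hEu x hx
      obtain ⟨hx1, hx2⟩ := hX x hx
      refine (prob_bad P (U x) (hU x) (h x) (by omega) (hunif x hx) (Bad y u x)
        ((L' + 1) * (h x / (L + L' + 1))) ?_).trans (ratio_bound L L' K (h x) hL hK hx2)
      refine (count_good (SumsOf α u I c) M m L L' hEu (y - α x) (h x) (by omega) (by omega)).trans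
        (le_of_eq ?_)
      congr 1
      ext a
      simp only [hBad, Finset.mem_filter, Set.mem_ofPred_eq, not_not]
  have hsub : {ω | Cov (SumsOf α (fun n => U n ω) I c) M m L ∧
        ¬ Cov (SumsOf α (fun n => U n ω) (I ∪ X) (c + 1)) (M + W) m L'} ⊆
      ⋃ y ∈ Finset.Icc (M + W) m,
        {ω | E (fun n => U n ω) ∧ ∀ x ∈ X, U x ω ∈ Bad y (fun n => U n ω) x} := by
    rintro ω ⟨h1, h2⟩
    unfold Cov at h2
    push Not at h2
    obtain ⟨y, hy1, hy2, hy3⟩ := h2
    simp only [Set.mem_iUnion]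
    refine ⟨y, Finset.mem_Icc.2 ⟨hy1, hy2⟩, h1, ?_⟩
    intro x hx
    obtain ⟨hx1, hx2⟩ := hX x hx
    simp only [hBad, Set.mem_ofPred_eq]
    rintro ⟨b, ⟨S, hS, hSc, hSb⟩, hb1, hb2⟩
    have hxS : x ∉ S := fun hxS => (Finset.disjoint_left.1 hd (hS hxS)) hx
    have hmem : b + (α x + U x ω) ∈ SumsOf α (fun n => U n ω) (I ∪ X) (c + 1) := by
      refine ⟨insert x S, ?_, ?_, ?_⟩
      · intro n hn
        rcases Finset.mem_insert.1 hn with h | h
        · rw [h]; exact Finset.mem_union_right _ hx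
        · exact Finset.mem_union_left _ (hS h)
      · rw [Finset.card_insert_of_notMem hxS]; omega
      · rw [Finset.sum_insert hxS, hSb]; ring
    have := hy3 _ hmem (by omega)
    omega
  calc P {ω | Cov (SumsOf α (fun n => U n ω) I c) M m L ∧
        ¬ Cov (SumsOf α (fun n => U n ω) (I ∪ X) (c + 1)) (M + W) m L'}
      ≤ P (⋃ y ∈ Finset.Icc (M + W) m,
        {ω | E (fun n => U n ω) ∧ ∀ x ∈ X, U x ω ∈ Bad y (fun n => U n ω) x}) := measure_mono hsub
    _ ≤ ∑ y ∈ Finset.Icc (M + W) m,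
        P {ω | E (fun n => U n ω) ∧ ∀ x ∈ X, U x ω ∈ Bad y (fun n => U n ω) x} :=
        measure_biUnion_finset_le _ _
    _ ≤ ∑ _y ∈ Finset.Icc (M + W) m, ENNReal.ofReal (1 - 1 / (4 * K)) ^ X.card :=
        Finset.sum_le_sum hprob
    _ = ((Finset.Icc (M + W) m).card : ENNReal) * ENNReal.ofReal (1 - 1 / (4 * K)) ^ X.card := by
        rw [Finset.sum_const, nsmul_eq_mul]
    _ ≤ (m + 1) * ENNReal.ofReal (1 - 1 / (4 * K)) ^ X.card := by
        refine mul_le_mul' ?_ le_rfl
        rw [Nat.card_Icc]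
        have : m + 1 - (M + W) ≤ m + 1 := Nat.sub_le _ _
        exact_mod_cast this

/-- Iterating `stage`. -/
theorem chain (P : Measure Ω) [IsProbabilityMeasure P] (U : ℕ → Ω → ℕ)
    (hU : ∀ n, Measurable (U n)) (hind : iIndepFun U P) (α h : ℕ → ℕ) (r : ℕ)
    (I X : ℕ → Finset ℕ) (hI : ∀ i < r, I (i + 1) = I i ∪ X i)
    (hd : ∀ i < r, Disjoint (I i) (X i))
    (hunif : ∀ i < r, ∀ x ∈ X i, ∀ j < h x, P {ω | U x ω = j} = (h x : ENNReal)⁻¹)
    (c m W L K N : ℕ) (hK : 0 < K)
    (hX : ∀ i < r, ∀ x ∈ X i, α x + h x ≤ W ∧ 2 * L + 1 ≤ h x)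
    (hN : ∀ i < r, N ≤ (X i).card) (M : ℕ) :
    P {ω | ¬ Cov (SumsOf α (fun n => U n ω) (I r) (c + r)) (M + r * W) m (L / K ^ r)} ≤
      P {ω | ¬ Cov (SumsOf α (fun n => U n ω) (I 0) c) M m L} +
        r * ((m + 1) * ENNReal.ofReal (1 - 1 / (4 * K)) ^ N) := by
  induction r with
  | zero => simp
  | succ r ih =>
    have ih' := ih (fun i hi => hI i (by omega)) (fun i hi => hd i (by omega))
      (fun i hi => hunif i (by omega)) (fun i hi => hX i (by omega)) (fun i hi => hN i (by omega))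
    have hst := stage P U hU hind α h (I r) (X r) (hd r (by omega)) (hunif r (by omega))
      (c + r) (M + r * W) m W (L / K ^ r) (L / K ^ (r + 1)) K
      (by
        rw [pow_succ, ← Nat.div_div_eq_div_mul]
        exact Nat.div_le_self _ _)
      (by
        rw [pow_succ, ← Nat.div_div_eq_div_mul]
        have := Nat.lt_mul_div_succ (L / K ^ r) hK
        exact this)
      (by
        intro x hx
        obtain ⟨h1, h2⟩ := hX r (by omega) x hx
        refine ⟨h1, ?_⟩
        have h3 : L / K ^ r ≤ L := Nat.div_le_self _ _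
        have h4 : L / K ^ (r + 1) ≤ L := Nat.div_le_self _ _
        omega)
    have hle : ENNReal.ofReal (1 - 1 / (4 * (K : ℝ))) ^ (X r).card ≤
        ENNReal.ofReal (1 - 1 / (4 * (K : ℝ))) ^ N := by
      refine pow_le_pow_right_of_le_one' ?_ (hN r (by omega))
      rw [ENNReal.ofReal_le_one]
      have : (0 : ℝ) ≤ 1 / (4 * K) := by positivity
      linarith
    have hsub : {ω | ¬ Cov (SumsOf α (fun n => U n ω) (I (r + 1)) (c + (r + 1)))
          (M + (r + 1) * W) m (L / K ^ (r + 1))} ⊆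
        {ω | ¬ Cov (SumsOf α (fun n => U n ω) (I r) (c + r)) (M + r * W) m (L / K ^ r)} ∪
        {ω | Cov (SumsOf α (fun n => U n ω) (I r) (c + r)) (M + r * W) m (L / K ^ r) ∧
          ¬ Cov (SumsOf α (fun n => U n ω) (I r ∪ X r) (c + r + 1)) (M + r * W + W) m
            (L / K ^ (r + 1))} := by
      intro ω hω
      by_cases h1 : Cov (SumsOf α (fun n => U n ω) (I r) (c + r)) (M + r * W) m (L / K ^ r)
      · right
        refine ⟨h1, ?_⟩
        rw [hI r (by omega)] at hω
        have h2 : M + (r + 1) * W = M + r * W + W := by ring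
        rw [h2] at hω
        exact hω
      · left
        exact h1
    calc P {ω | ¬ Cov (SumsOf α (fun n => U n ω) (I (r + 1)) (c + (r + 1)))
          (M + (r + 1) * W) m (L / K ^ (r + 1))}
        ≤ P {ω | ¬ Cov (SumsOf α (fun n => U n ω) (I r) (c + r)) (M + r * W) m (L / K ^ r)} +
          P {ω | Cov (SumsOf α (fun n => U n ω) (I r) (c + r)) (M + r * W) m (L / K ^ r) ∧
          ¬ Cov (SumsOf α (fun n => U n ω) (I r ∪ X r) (c + r + 1)) (M + r * W + W) m
            (L / K ^ (r + 1))} := (measure_mono hsub).trans (measure_union_le _ _)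
      _ ≤ (P {ω | ¬ Cov (SumsOf α (fun n => U n ω) (I 0) c) M m L} +
          r * ((m + 1) * ENNReal.ofReal (1 - 1 / (4 * K)) ^ N)) +
          (m + 1) * ENNReal.ofReal (1 - 1 / (4 * K)) ^ N := by
          refine add_le_add ih' (hst.trans ?_)
          exact mul_le_mul' le_rfl hle
      _ = P {ω | ¬ Cov (SumsOf α (fun n => U n ω) (I 0) c) M m L} +
          ((r + 1 : ℕ) : ENNReal) * ((m + 1) * ENNReal.ofReal (1 - 1 / (4 * K)) ^ N) := by
          push_cast
          ring

end Pool.Agent.helper306_pert
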