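import Pool.Agent.helper306_pert.Core

/-!
# The greedy algorithm for perturbed `k`-th powers

For every perturbation `0 ≤ u n ≤ n ^ (k - 1)` and every `y` there is a sum `b ≤ y` of at most `t`
terms `n ^ k + u n` with `y - b ≪ y ^ ((1 - 1 / k) ^ t)`.
-/

set_option autoImplicit false

namespace Pool.Agent.helper306_pert

theorem exists_root (k : ℕ) (hk : 1 ≤ k) (y : ℕ) :
    ∃ N : ℕ, N ^ k ≤ y ∧ y < (N + 1) ^ k ∧ (N : ℝ) ≤ (y : ℝ) ^ (1 / (k : ℝ)) := by
  have hk0 : (k : ℝ) ≠ 0 := by positivity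
  have hy : (0 : ℝ) ≤ (y : ℝ) ^ (1 / (k : ℝ)) := by positivity
  have hpow : ((y : ℝ) ^ (1 / (k : ℝ))) ^ k = y := by
    rw [← Real.rpow_natCast, ← Real.rpow_mul (by positivity), one_div_mul_cancel hk0, Real.rpow_one]
  refine ⟨⌊(y : ℝ) ^ (1 / (k : ℝ))⌋₊, ?_, ?_, Nat.floor_le hy⟩
  · have h1 : ((⌊(y : ℝ) ^ (1 / (k : ℝ))⌋₊ : ℕ) : ℝ) ^ k ≤ y := by
      calc ((⌊(y : ℝ) ^ (1 / (k : ℝ))⌋₊ : ℕ) : ℝ) ^ k ≤ ((y : ℝ) ^ (1 / (k : ℝ))) ^ k := by
            gcongr
            exact Nat.floor_le hy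
        _ = y := hpow
    exact_mod_cast h1
  · have h1 : (y : ℝ) < ((⌊(y : ℝ) ^ (1 / (k : ℝ))⌋₊ : ℕ) + 1 : ℝ) ^ k := by
      calc (y : ℝ) = ((y : ℝ) ^ (1 / (k : ℝ))) ^ k := hpow.symm
        _ < ((⌊(y : ℝ) ^ (1 / (k : ℝ))⌋₊ : ℕ) + 1 : ℝ) ^ k := by
            refine pow_lt_pow_left₀ (Nat.lt_floor_add_one _) hy (by omega)
    exact_mod_cast h1

theorem pow_sub_pow_le (k : ℕ) (hk : 1 ≤ k) (a b : ℝ) (ha : 0 < a) (hb : 0 ≤ b) (hba : b ≤ a) :
    a ^ k - b ^ k ≤ k * (a - b) * a ^ (k - 1) := by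
  have h1 : 1 + (k : ℝ) * (b / a - 1) ≤ (1 + (b / a - 1)) ^ k := by
    refine one_add_mul_le_pow ?_ k
    have : 0 ≤ b / a := by positivity
    linarith
  have h2 : (1 + (b / a - 1)) ^ k = b ^ k / a ^ k := by
    rw [← div_pow]; congr 1; ring
  rw [h2] at h1
  have h3 : (1 + (k : ℝ) * (b / a - 1)) * a ^ k ≤ b ^ k := by
    rwa [le_div_iff₀ (by positivity)] at h1
  have h4 : a ^ k = a ^ (k - 1) * a := by
    rw [← pow_succ]; congr 1; omega
  have h5 : (1 + (k : ℝ) * (b / a - 1)) * a ^ k = a ^ k - k * (a - b) * a ^ (k - 1) := by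
    rw [h4]; field_simp; ring
  linarith

theorem succ_pow_ge (k : ℕ) (hk : 1 ≤ k) (z : ℕ) : z ^ k + z ^ (k - 1) ≤ (z + 1) ^ k := by
  obtain ⟨j, rfl⟩ : ∃ j, k = j + 1 := ⟨k - 1, by omega⟩
  simp only [Nat.add_sub_cancel]
  calc z ^ (j + 1) + z ^ j = z ^ j * (z + 1) := by ring
    _ ≤ (z + 1) ^ j * (z + 1) := by gcongr; omega
    _ = (z + 1) ^ (j + 1) := by ring

theorem greedy (k q : ℕ) (hk : 2 ≤ k) (t : ℕ) (ht : t ≤ q) :
    ∃ C : ℝ, 0 ≤ C ∧ ∀ (u : ℕ → ℕ) (m : ℕ), (∀ n, 1 ≤ n → n ≤ m → u n ≤ n ^ (k - 1)) →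
      ∀ y ≤ m, ∃ b ∈ SumsOf (fun n => n ^ k) u {n ∈ Finset.Icc 1 m | n % q < t} t,
        b ≤ y ∧ (y : ℝ) - b ≤ C * (y : ℝ) ^ ((1 - 1 / (k : ℝ)) ^ t) + C := by
  induction t with
  | zero =>
    refine ⟨1, zero_le_one, fun u m _ y _ => ⟨0, ⟨∅, by simp, by simp, by simp⟩, by omega, ?_⟩⟩
    simp
  | succ t ih =>
    obtain ⟨C, hC, hG⟩ := ih (by omega)
    set C1 : ℝ := k * (q + 1) * 2 ^ (k - 1) with hC1
    have hk2 : (2 : ℝ) ≤ k := by exact_mod_cast hk
    have hC1one : 1 ≤ C1 := by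
      have h1 : (1 : ℝ) ≤ 2 ^ (k - 1) := one_le_pow₀ (by norm_num)
      have h2 : (1 : ℝ) ≤ (q : ℝ) + 1 := by
        have : (0 : ℝ) ≤ q := by positivity
        linarith
      have h3 : (1 : ℝ) ≤ (k : ℝ) * (q + 1) := by nlinarith
      nlinarith
    refine ⟨C * C1 + C + (q + 2 : ℕ) ^ k, by positivity, fun u m hu y hy => ?_⟩
    obtain ⟨N, hN1, hN2, hN3⟩ := exists_root k (by omega) y
    have hpos : 0 ≤ (y : ℝ) ^ ((1 - 1 / (k : ℝ)) ^ (t + 1)) := by positivity
    by_cases hNq : N ≤ q + 1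
    · refine ⟨0, ⟨∅, by simp, by simp, by simp⟩, by omega, ?_⟩
      have h1 : y < (q + 2) ^ k := by
        calc y < (N + 1) ^ k := hN2
          _ ≤ (q + 2) ^ k := Nat.pow_le_pow_left (by omega) k
      have h2 : (y : ℝ) ≤ (q + 2 : ℕ) ^ k := by
        have : (y : ℝ) < (((q + 2) ^ k : ℕ) : ℝ) := by exact_mod_cast h1
        push_cast at this ⊢
        exact this.le
      have h3 : 0 ≤ C * C1 := by positivity
      have h4 : 0 ≤ (C * C1 + C + (q + 2 : ℕ) ^ k) * (y : ℝ) ^ ((1 - 1 / (k : ℝ)) ^ (t + 1)) := by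
        positivity
      push_cast at h2 h4 ⊢
      linarith
    · push Not at hNq
      -- the element with residue `t`
      set z := t + q * ((N - 1 - t) / q) with hz
      have hq0 : 0 < q := by omega
      have hdm := Nat.div_add_mod (N - 1 - t) q
      have hml := Nat.mod_lt (N - 1 - t) hq0
      have hz1 : z ≤ N - 1 := by omega
      have hz2 : N ≤ z + q := by omega
      have hz3 : z % q = t := by
        rw [hz, Nat.add_mul_mod_self_left, Nat.mod_eq_of_lt (by omega)]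
      have hz4 : 1 ≤ z := by omega
      have hNy : N ≤ y := (Nat.le_self_pow (by omega) N).trans hN1
      have hz5 : z ≤ m := by omega
      have hA : z ^ k + u z ≤ y := by
        calc z ^ k + u z ≤ z ^ k + z ^ (k - 1) := by
              have := hu z hz4 hz5
              omega
          _ ≤ (z + 1) ^ k := succ_pow_ge k (by omega) z
          _ ≤ N ^ k := by gcongr; omega
          _ ≤ y := hN1
      obtain ⟨b, ⟨S, hS, hSc, hSb⟩, hb1, hb2⟩ := hG u m hu (y - (z ^ k + u z)) (by omega)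
      have hzS : z ∉ S := by
        intro h
        have := (Finset.mem_filter.1 (hS h)).2
        omega
      refine ⟨b + (z ^ k + u z), ⟨insert z S, ?_, ?_, ?_⟩, by omega, ?_⟩
      · intro n hn
        rcases Finset.mem_insert.1 hn with h | h
        · rw [h]
          exact Finset.mem_filter.2 ⟨Finset.mem_Icc.2 ⟨hz4, hz5⟩, by omega⟩
        · have := Finset.mem_filter.1 (hS h)
          exact Finset.mem_filter.2 ⟨this.1, by omega⟩
      · rw [Finset.card_insert_of_notMem hzS]; omega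
      · rw [Finset.sum_insert hzS, hSb]; ring
      · -- the size of the remainder
        set y' := y - (z ^ k + u z) with hy'
        have hy'r : ((y' : ℕ) : ℝ) = y - (z ^ k + u z : ℕ) := by
          rw [hy', Nat.cast_sub hA]
        have h1 : (y' : ℝ) ≤ C1 * (y : ℝ) ^ (1 - 1 / (k : ℝ)) := by
          have h2 : (y : ℝ) ≤ ((N : ℝ) + 1) ^ k := by
            have : (y : ℝ) < (((N + 1) ^ k : ℕ) : ℝ) := by exact_mod_cast hN2
            push_cast at this
            exact this.le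
          have h3 : ((N : ℝ) - q) ^ k ≤ (z : ℝ) ^ k := by
            have h4 : (N : ℝ) ≤ z + q := by exact_mod_cast hz2
            have h5 : (q : ℝ) ≤ N := by
              have : q ≤ N := by omega
              exact_mod_cast this
            exact pow_le_pow_left₀ (by linarith) (by linarith) k
          have h6 : (y' : ℝ) ≤ ((N : ℝ) + 1) ^ k - ((N : ℝ) - q) ^ k := by
            rw [hy'r]
            push_cast
            have : (0 : ℝ) ≤ u z := by positivity
            linarith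
          have h7 : (q : ℝ) ≤ N := by
            have : q ≤ N := by omega
            exact_mod_cast this
          have h8 := pow_sub_pow_le k (by omega) ((N : ℝ) + 1) ((N : ℝ) - q) (by positivity)
            (by linarith) (by
              have : (0 : ℝ) ≤ q := by positivity
              linarith)
          have hN1r : (1 : ℝ) ≤ N := by
            have : 1 ≤ N := by omega
            exact_mod_cast this
          have h9 : ((N : ℝ) + 1) ^ (k - 1) ≤ 2 ^ (k - 1) * (N : ℝ) ^ (k - 1) := by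
            rw [← mul_pow]
            exact pow_le_pow_left₀ (by positivity) (by linarith) _
          have h10 : (N : ℝ) ^ (k - 1) ≤ (y : ℝ) ^ (1 - 1 / (k : ℝ)) := by
            calc (N : ℝ) ^ (k - 1) ≤ ((y : ℝ) ^ (1 / (k : ℝ))) ^ (k - 1) :=
                  pow_le_pow_left₀ (by positivity) hN3 _
              _ = (y : ℝ) ^ (1 - 1 / (k : ℝ)) := by
                  rw [← Real.rpow_natCast, ← Real.rpow_mul (by positivity)]
                  congr 1
                  rw [Nat.cast_sub (by omega)]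
                  field_simp
                  push_cast
                  ring
          calc (y' : ℝ) ≤ ((N : ℝ) + 1) ^ k - ((N : ℝ) - q) ^ k := h6
            _ ≤ k * (((N : ℝ) + 1) - ((N : ℝ) - q)) * ((N : ℝ) + 1) ^ (k - 1) := h8
            _ = k * (q + 1) * ((N : ℝ) + 1) ^ (k - 1) := by ring
            _ ≤ k * (q + 1) * (2 ^ (k - 1) * (N : ℝ) ^ (k - 1)) := by gcongr
            _ ≤ k * (q + 1) * (2 ^ (k - 1) * (y : ℝ) ^ (1 - 1 / (k : ℝ))) := by gcongr
            _ = C1 * (y : ℝ) ^ (1 - 1 / (k : ℝ)) := by rw [hC1]; ring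
        set g : ℝ := (1 - 1 / (k : ℝ)) ^ t with hg
        have hk1 : 0 ≤ 1 - 1 / (k : ℝ) := by
          have : 1 / (k : ℝ) ≤ 1 := by
            rw [div_le_one (by positivity)]; linarith
          linarith
        have hk1' : 1 - 1 / (k : ℝ) ≤ 1 := by
          have : 0 ≤ 1 / (k : ℝ) := by positivity
          linarith
        have hg0 : 0 ≤ g := by positivity
        have hg1 : g ≤ 1 := pow_le_one₀ hk1 hk1'
        have h11 : (y' : ℝ) ^ g ≤ C1 * (y : ℝ) ^ ((1 - 1 / (k : ℝ)) ^ (t + 1)) := by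
          calc (y' : ℝ) ^ g ≤ (C1 * (y : ℝ) ^ (1 - 1 / (k : ℝ))) ^ g :=
                Real.rpow_le_rpow (by positivity) h1 hg0
            _ = C1 ^ g * ((y : ℝ) ^ (1 - 1 / (k : ℝ))) ^ g := by
                rw [Real.mul_rpow (by positivity) (by positivity)]
            _ = C1 ^ g * (y : ℝ) ^ ((1 - 1 / (k : ℝ)) ^ (t + 1)) := by
                rw [← Real.rpow_mul (by positivity)]
                congr 2
                rw [hg, pow_succ]; ring
            _ ≤ C1 * (y : ℝ) ^ ((1 - 1 / (k : ℝ)) ^ (t + 1)) := by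
                gcongr
                calc C1 ^ g ≤ C1 ^ (1 : ℝ) := Real.rpow_le_rpow_of_exponent_le hC1one hg1
                  _ = C1 := Real.rpow_one _
        have h12 : ((y : ℝ) - ((b + (z ^ k + u z) : ℕ) : ℝ)) = (y' : ℝ) - b := by
          rw [hy'r]; push_cast; ring
        rw [h12]
        have h13 : C * (y' : ℝ) ^ g ≤ C * (C1 * (y : ℝ) ^ ((1 - 1 / (k : ℝ)) ^ (t + 1))) := by
          gcongr
        have h14 : (0 : ℝ) ≤ ((q + 2 : ℕ) : ℝ) ^ k := by positivity
        have h15 : 0 ≤ (C + ((q + 2 : ℕ) : ℝ) ^ k) * (y : ℝ) ^ ((1 - 1 / (k : ℝ)) ^ (t + 1)) := by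
          positivity
        have h16 : 0 ≤ C * C1 := by positivity
        nlinarith [hb2]

end Pool.Agent.helper306_pert
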