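import Pool.Agent.helper306_pert.Greedy

/-!
# Waring's problem for randomly perturbed `k`-th powers
-/

set_option autoImplicit false

namespace Pool.Agent.helper306_pert

open MeasureTheory ProbabilityTheory Filter Topology

variable {Ω : Type*} [MeasurableSpace Ω]

/-- Borel-Cantelli with an eventual summable bound -/
lemma bc {μ : Measure Ω} {B : ℕ → Set Ω} {f : ℕ → ℝ} (hf : Summable f) (hf0 : ∀ n, 0 ≤ f n)
    (h : ∀ᶠ n in atTop, μ (B n) ≤ ENNReal.ofReal (f n)) :
    ∀ᵐ ω ∂μ, ∀ᶠ n in atTop, ω ∉ B n := by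
  obtain ⟨N, hN⟩ := eventually_atTop.mp h
  have h1 : ∀ᵐ ω ∂μ, ∀ᶠ n in atTop, ω ∉ (if N ≤ n then B n else ∅) := by
    refine ae_eventually_notMem ?_
    have h2 : ∀ n, μ (if N ≤ n then B n else ∅) ≤ ENNReal.ofReal (f n) := by
      intro n
      split_ifs with hn
      · exact hN n hn
      · simp
    refine ne_top_of_le_ne_top ?_ (ENNReal.tsum_le_tsum h2)
    rw [← ENNReal.ofReal_tsum_of_nonneg hf0 hf]
    exact ENNReal.ofReal_ne_top
  filter_upwards [h1] with ω hω
  filter_upwards [hω, eventually_ge_atTop N] with n hn hNn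
  rwa [if_pos hNn] at hn

/-- an eventual comparison of powers -/
lemma ev_le (A a b : ℝ) (hab : a < b) : ∀ᶠ m : ℕ in atTop, A * (m : ℝ) ^ a ≤ (m : ℝ) ^ b := by
  have h1 : Tendsto (fun m : ℕ => (m : ℝ) ^ (b - a)) atTop atTop :=
    (tendsto_rpow_atTop (by linarith)).comp tendsto_natCast_atTop_atTop
  filter_upwards [h1.eventually_ge_atTop A, eventually_ge_atTop 1] with m hm hm1
  have hm0 : (0 : ℝ) < m := by exact_mod_cast hm1
  calc A * (m : ℝ) ^ a ≤ (m : ℝ) ^ (b - a) * (m : ℝ) ^ a := by gcongr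
    _ = (m : ℝ) ^ b := by rw [← Real.rpow_add hm0]; congr 1; ring

lemma ev_log (A b : ℝ) (hb : 0 < b) : ∀ᶠ m : ℕ in atTop, A * Real.log m ≤ (m : ℝ) ^ b := by
  have h1 := (isLittleO_log_rpow_atTop hb).comp_tendsto tendsto_natCast_atTop_atTop
  have h2 := h1.def (c := 1 / (|A| + 1)) (by positivity)
  filter_upwards [h2, eventually_ge_atTop 1] with m hm hm1
  have hm0 : (1 : ℝ) ≤ m := by exact_mod_cast hm1
  have hlog : 0 ≤ Real.log m := Real.log_nonneg hm0
  simp only [Function.comp_apply, Real.norm_eq_abs] at hm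
  have habs : |(m : ℝ) ^ b| = (m : ℝ) ^ b := abs_of_nonneg (by positivity)
  rw [abs_of_nonneg hlog, habs] at hm
  have h3 : (|A| + 1) * Real.log m ≤ (m : ℝ) ^ b := by
    rw [one_div, inv_mul_eq_div, le_div_iff₀ (by positivity)] at hm
    linarith
  have h4 : A * Real.log m ≤ (|A| + 1) * Real.log m := by
    gcongr
    linarith [le_abs_self A]
  linarith

lemma card_X (Z q v : ℕ) (hv : v < q) :
    Z / q - 1 ≤ {x ∈ Finset.Ioc Z (2 * Z) | x % q = v}.card := by
  rw [← Finset.card_range (Z / q - 1)]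
  refine Finset.card_le_card_of_injOn (fun j => q * (Z / q + 1 + j) + v) ?_ ?_
  · intro j hj
    have hj' : j < Z / q - 1 := by simpa using hj
    have hq : 0 < q := by omega
    have h1 : Z < q * (Z / q + 1) := Nat.lt_mul_div_succ Z hq
    have h2 : q * (Z / q) ≤ Z := Nat.mul_div_le Z q
    have h3 : q * (j + 2) ≤ q * (Z / q) := Nat.mul_le_mul_left _ (by omega)
    have h4 : q * (Z / q + 1 + j) = q * (Z / q + 1) + q * j := by ring
    have h5 : q * (Z / q + 1) = q * (Z / q) + q := by ring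
    have h6 : q * (j + 2) = q * j + 2 * q := by ring
    have h7 : 0 ≤ q * j := Nat.zero_le _
    simp only [Finset.coe_filter, Finset.mem_Ioc, Set.mem_ofPred_eq]
    refine ⟨⟨by omega, by omega⟩, ?_⟩
    rw [Nat.mul_add_mod, Nat.mod_eq_of_lt hv]
  · intro j _ j' _ hjj
    simp only at hjj
    have hq : 0 < q := by omega
    have h1 : q * (Z / q + 1 + j) = q * (Z / q + 1 + j') := by omega
    have := Nat.eq_of_mul_eq_mul_left hq h1
    omega

lemma ae_lt (P : Measure Ω) [IsProbabilityMeasure P] (V : Ω → ℕ) (hV : Measurable V) (h : ℕ)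
    (hh : 0 < h) (hunif : ∀ j < h, P {ω | V ω = j} = (h : ENNReal)⁻¹) : ∀ᵐ ω ∂P, V ω < h := by
  classical
  have h1 := prob_bad P V hV h hh hunif {a | ¬ a < h} h (by
    calc h = (Finset.range h).card := (Finset.card_range h).symm
      _ ≤ _ := by
          refine Finset.card_le_card ?_
          intro a ha
          simpa using ha)
  have h2 : (h : ENNReal) / h = 1 := ENNReal.div_self (by positivity) (ENNReal.natCast_ne_top h)
  rw [h2, tsub_self] at h1
  rw [ae_iff]
  exact le_antisymm h1 (zero_le)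

/-- the tail bound -/
lemma tail_bound (r m K N : ℕ) (hK : 0 < K) (hm : 2 * r ≤ m) (hm1 : 1 ≤ m)
    (hT : 4 * Real.log m ≤ (N : ℝ) / (4 * K)) :
    (r : ENNReal) * ((m + 1) * ENNReal.ofReal (1 - 1 / (4 * K)) ^ N) ≤
      ENNReal.ofReal (1 / (m : ℝ) ^ 2) := by
  have hm0 : (0 : ℝ) < m := by exact_mod_cast hm1
  have hKr : (1 : ℝ) ≤ K := by exact_mod_cast hK
  have hK4 : (0 : ℝ) ≤ 1 - 1 / (4 * K) := by
    have : 1 / (4 * (K : ℝ)) ≤ 1 := by
      rw [div_le_one (by positivity)]; linarith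
    linarith
  have h1 : (1 - 1 / (4 * (K : ℝ))) ^ N ≤ Real.exp (-((N : ℝ) / (4 * K))) := by
    calc (1 - 1 / (4 * (K : ℝ))) ^ N ≤ (Real.exp (-(1 / (4 * (K : ℝ))))) ^ N := by
          refine pow_le_pow_left₀ hK4 ?_ N
          have := Real.add_one_le_exp (-(1 / (4 * (K : ℝ))))
          linarith
      _ = Real.exp (-((N : ℝ) / (4 * K))) := by
          rw [← Real.exp_nat_mul]
          congr 1
          field_simp
  have h2 : Real.exp (-((N : ℝ) / (4 * K))) ≤ 1 / (m : ℝ) ^ 4 := by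
    calc Real.exp (-((N : ℝ) / (4 * K))) ≤ Real.exp (-(4 * Real.log m)) :=
          Real.exp_le_exp.mpr (by linarith)
      _ = 1 / (m : ℝ) ^ 4 := by
          rw [Real.exp_neg, mul_comm, Real.exp_mul, Real.exp_log hm0, one_div]
          norm_cast
  have h3 : (r : ℝ) * (m + 1) ≤ (m : ℝ) ^ 2 := by
    have h4 : (2 : ℝ) * r ≤ m := by exact_mod_cast hm
    have h5 : (1 : ℝ) ≤ m := by exact_mod_cast hm1
    nlinarith
  have h6 : (r : ENNReal) * ((m + 1) * ENNReal.ofReal (1 - 1 / (4 * K)) ^ N) =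
      ENNReal.ofReal (r * ((m + 1) * (1 - 1 / (4 * (K : ℝ))) ^ N)) := by
    rw [ENNReal.ofReal_mul (by positivity), ENNReal.ofReal_mul (by positivity),
      ENNReal.ofReal_pow hK4, ENNReal.ofReal_natCast, ENNReal.ofReal_add (by positivity)
      (by positivity), ENNReal.ofReal_natCast, ENNReal.ofReal_one]
  rw [h6]
  refine ENNReal.ofReal_le_ofReal ?_
  calc (r : ℝ) * ((m + 1) * (1 - 1 / (4 * (K : ℝ))) ^ N)
      ≤ r * ((m + 1) * (1 / (m : ℝ) ^ 4)) := by
        gcongr
        exact h1.trans h2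
    _ = (r * (m + 1)) * (1 / (m : ℝ) ^ 4) := by ring
    _ ≤ (m : ℝ) ^ 2 * (1 / (m : ℝ) ^ 4) := by gcongr
    _ = 1 / (m : ℝ) ^ 2 := by field_simp

/-- The index sets: `I0` and then one residue class for each random summand. -/
def Idx (m q t Z : ℕ) : ℕ → Finset ℕ
  | 0 => {n ∈ Finset.Icc 1 m | n % q < t}
  | i + 1 => Idx m q t Z i ∪ {x ∈ Finset.Ioc Z (2 * Z) | x % q = t + i}

lemma idx_mod (m q t Z i n : ℕ) (hn : n ∈ Idx m q t Z i) : n % q < t + i := by
  induction i with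
  | zero =>
    simp only [Idx, Finset.mem_filter] at hn
    omega
  | succ i ih =>
    simp only [Idx, Finset.mem_union, Finset.mem_filter] at hn
    rcases hn with h | h
    · have := ih h; omega
    · omega

lemma idx_pos (m q t Z i n : ℕ) (hn : n ∈ Idx m q t Z i) : 1 ≤ n := by
  induction i with
  | zero =>
    simp only [Idx, Finset.mem_filter, Finset.mem_Icc] at hn
    omega
  | succ i ih =>
    simp only [Idx, Finset.mem_union, Finset.mem_filter, Finset.mem_Ioc] at hn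
    rcases hn with h | h
    · exact ih h
    · omega

/-- The theorem for one value of `m`, with all the parameters. -/
theorem finite_bound (P : Measure Ω) [IsProbabilityMeasure P] (U : ℕ → Ω → ℕ)
    (hU : ∀ n, Measurable (U n)) (hind : iIndepFun U P) (k : ℕ) (hk : 2 ≤ k) (h : ℕ → ℕ)
    (hh : ∀ n, 1 ≤ n → 1 ≤ h n ∧ h n ≤ n ^ (k - 1))
    (hunif : ∀ n, 1 ≤ n → ∀ j < h n, P {ω | U n ω = j} = (h n : ENNReal)⁻¹)
    (t r : ℕ) (C : ℝ) (hC : 0 ≤ C)
    (hG : ∀ (u : ℕ → ℕ) (m : ℕ), (∀ n, 1 ≤ n → n ≤ m → u n ≤ n ^ (k - 1)) →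
      ∀ y ≤ m, ∃ b ∈ SumsOf (fun n => n ^ k) u {n ∈ Finset.Icc 1 m | n % (t + r) < t} t,
        b ≤ y ∧ (y : ℝ) - b ≤ C * (y : ℝ) ^ ((1 - 1 / (k : ℝ)) ^ t) + C)
    (m L K Z : ℕ) (hL : C * (m : ℝ) ^ ((1 - 1 / (k : ℝ)) ^ t) + C < L + 1)
    (hZ : ∀ x, Z < x → 2 * L + 1 ≤ h x) (hK : 0 < K) (hLK : L < K ^ r)
    (hW : r * (2 * Z + 1) ^ k ≤ m) :
    P {ω | ¬ ∃ S : Finset ℕ, (∀ n ∈ S, 1 ≤ n) ∧ S.card ≤ t + r ∧ ∑ n ∈ S, (n ^ k + U n ω) = m} ≤
      r * ((m + 1) * ENNReal.ofReal (1 - 1 / (4 * K)) ^ (Z / (t + r) - 1)) := by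
  have hch := chain P U hU hind (fun n => n ^ k) h r (Idx m (t + r) t Z)
    (fun i => {x ∈ Finset.Ioc Z (2 * Z) | x % (t + r) = t + i})
    (fun i _ => rfl)
    (fun i _ => by
      refine Finset.disjoint_left.2 fun n hn hn' => ?_
      have h1 := idx_mod _ _ _ _ _ _ hn
      have h2 := (Finset.mem_filter.1 hn').2
      omega)
    (fun i _ x hx j hj => hunif x (by
      have := (Finset.mem_filter.1 hx).1
      have := Finset.mem_Ioc.1 this
      omega) j hj)
    t m ((2 * Z + 1) ^ k) L K (Z / (t + r) - 1) hK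
    (fun i _ x hx => by
      have h1 := Finset.mem_Ioc.1 (Finset.mem_filter.1 hx).1
      refine ⟨?_, hZ x h1.1⟩
      calc x ^ k + h x ≤ x ^ k + x ^ (k - 1) := by
            have := (hh x (by omega)).2
            omega
        _ ≤ (x + 1) ^ k := succ_pow_ge k (by omega) x
        _ ≤ (2 * Z + 1) ^ k := Nat.pow_le_pow_left (by omega) k)
    (fun i hi => card_X Z (t + r) (t + i) (by omega)) 0
  have h0 : P {ω | ¬ Cov (SumsOf (fun n => n ^ k) (fun n => U n ω) (Idx m (t + r) t Z 0) t) 0 m L}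
      = 0 := by
    have hae : ∀ᵐ ω ∂P, ∀ n, 1 ≤ n → U n ω < h n := by
      rw [ae_all_iff]
      intro n
      by_cases hn : 1 ≤ n
      · filter_upwards [ae_lt P (U n) (hU n) (h n) (hh n hn).1 (hunif n hn)] with ω hω _
        exact hω
      · exact ae_of_all _ fun ω hn' => absurd hn' hn
    have : ∀ᵐ ω ∂P,
        Cov (SumsOf (fun n => n ^ k) (fun n => U n ω) (Idx m (t + r) t Z 0) t) 0 m L := by
      filter_upwards [hae] with ω hω
      intro y _ hy
      obtain ⟨b, hb, hby, hyb⟩ := hG (fun n => U n ω) m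
        (fun n hn _ => (hω n hn).le.trans (hh n hn).2) y hy
      refine ⟨b, hb, hby, ?_⟩
      have h1 : (y : ℝ) - b < L + 1 := by
        refine lt_of_le_of_lt (hyb.trans ?_) hL
        have hk1 : 0 ≤ 1 - 1 / (k : ℝ) := by
          have hk2 : (2 : ℝ) ≤ k := by exact_mod_cast hk
          have : 1 / (k : ℝ) ≤ 1 := by
            rw [div_le_one (by positivity)]; linarith
          linarith
        have : (y : ℝ) ≤ m := by exact_mod_cast hy
        gcongr
      have h2 : (y : ℝ) < ((b + (L + 1) : ℕ) : ℝ) := by push_cast; linarith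
      have h3 : y < b + (L + 1) := by exact_mod_cast h2
      omega
    rw [ae_iff] at this
    exact this
  rw [h0] at hch
  simp only [zero_add] at hch
  refine (measure_mono ?_).trans hch
  intro ω hω hcov
  apply hω
  have hdiv : L / K ^ r = 0 := Nat.div_eq_of_lt hLK
  obtain ⟨b, ⟨S, hS, hSc, hSb⟩, hb1, hb2⟩ := hcov m (by omega) le_rfl
  rw [hdiv] at hb2
  refine ⟨S, fun n hn => idx_pos _ _ _ _ _ _ (hS hn), hSc, ?_⟩
  have hbm : b = m := by omega
  rw [← hbm]
  exact hSb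

theorem main (P : Measure Ω) [IsProbabilityMeasure P] (U : ℕ → Ω → ℕ)
    (hU : ∀ n, Measurable (U n)) (hind : iIndepFun U P) (k : ℕ) (hk : 2 ≤ k) (θ : ℝ) (hθ : 0 < θ)
    (t : ℕ) (ht : (1 - 1 / (k : ℝ)) ^ t < θ / k) (h : ℕ → ℕ)
    (hh : ∀ n : ℕ, 1 ≤ n → (n : ℝ) ^ θ ≤ h n ∧ h n ≤ n ^ (k - 1))
    (hunif : ∀ n, 1 ≤ n → ∀ j < h n, P {ω | U n ω = j} = (h n : ENNReal)⁻¹) :
    ∀ᵐ ω ∂P, ∀ᶠ m : ℕ in atTop, ∃ S : Finset ℕ, (∀ n ∈ S, 1 ≤ n) ∧ S.card ≤ t + ⌈θ⌉₊ ∧
      ∑ n ∈ S, (n ^ k + U n ω) = m := by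
  set r := ⌈θ⌉₊ with hr
  have hr1 : 1 ≤ r := Nat.one_le_ceil_iff.2 hθ
  have hr1' : (1 : ℝ) ≤ r := by exact_mod_cast hr1
  have hθr : θ ≤ r := Nat.le_ceil θ
  have hkr : (2 : ℝ) ≤ k := by exact_mod_cast hk
  have hk0 : (0 : ℝ) < k := by linarith
  set g : ℝ := (1 - 1 / (k : ℝ)) ^ t with hg
  have hk1 : 0 < 1 - 1 / (k : ℝ) := by
    have : 1 / (k : ℝ) < 1 := by
      rw [div_lt_one (by positivity)]; linarith
    linarith
  have hg0 : 0 < g := by positivity
  -- exponents
  obtain ⟨β, hβ1, hβ2⟩ := exists_between ht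
  have hβ0 : 0 < β := hg0.trans hβ1
  have hβ3 : β / r < 1 / k := by
    rw [div_lt_div_iff₀ (by linarith) hk0]
    calc β * k < θ / k * k := by gcongr
      _ = θ := by field_simp
      _ ≤ 1 * r := by linarith
  obtain ⟨κ, hκ1, hκ2⟩ := exists_between hβ3
  have hκ0 : 0 < κ := lt_trans (by positivity) hκ1
  have hκr : β < κ * r := by
    rwa [div_lt_iff₀ (by linarith)] at hκ1
  obtain ⟨C, hC, hG⟩ := greedy k (t + r) hk t (by omega)
  set c : ℝ := 1 / (3 * (r + 1)) with hc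
  have hc0 : 0 < c := by positivity
  have hq0 : (0 : ℝ) < ((t + r : ℕ) : ℝ) := by
    have : 0 < t + r := by omega
    exact_mod_cast this
  set q : ℝ := ((t + r : ℕ) : ℝ) with hq
  have hh' : ∀ n, 1 ≤ n → 1 ≤ h n ∧ h n ≤ n ^ (k - 1) := by
    intro n hn
    obtain ⟨h1, h2⟩ := hh n hn
    refine ⟨?_, h2⟩
    have h3 : (1 : ℝ) ≤ (n : ℝ) ^ θ := Real.one_le_rpow (by exact_mod_cast hn) hθ.le
    have h4 : (1 : ℝ) ≤ h n := h3.trans h1
    exact_mod_cast h4
  have hev : ∀ᶠ m : ℕ in atTop, P {ω | ¬ ∃ S : Finset ℕ, (∀ n ∈ S, 1 ≤ n) ∧ S.card ≤ t + r ∧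
      ∑ n ∈ S, (n ^ k + U n ω) = m} ≤ ENNReal.ofReal (1 / (m : ℝ) ^ 2) := by
    filter_upwards [ev_le (2 * C) g β hβ1, ev_le (3 / c ^ θ) β (θ / k) hβ2,
      ev_le (2 * 2 ^ r) β (κ * r) hκr, ev_le 2 0 κ hκ0,
      ev_le (6 * q / c) 0 (1 / (k : ℝ)) (by positivity), ev_le (1 / c) 0 (1 / (k : ℝ)) (by positivity),
      ev_log (4 * (8 * q / c)) (1 / (k : ℝ) - κ) (by linarith),
      eventually_ge_atTop 1, eventually_ge_atTop (2 * r)] with m e1 e2 e3 e4 e5 e6 e7 hm1 hm2
    have hmr : (1 : ℝ) ≤ m := by exact_mod_cast hm1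
    have hm0 : (0 : ℝ) < m := by linarith
    rw [Real.rpow_zero, mul_one] at e4 e5 e6
    set x : ℝ := (m : ℝ) with hx
    set R : ℝ := x ^ (1 / (k : ℝ)) with hR
    have hR0 : 0 < R := by positivity
    have hRk : R ^ k = x := by
      rw [hR, ← Real.rpow_natCast, ← Real.rpow_mul (by positivity), one_div_mul_cancel (by positivity),
        Real.rpow_one]
    set Z := ⌊c * R⌋₊ with hZ
    set K := ⌊x ^ κ⌋₊ with hK
    set L := ⌊x ^ β⌋₊ with hL
    have hxβ : 1 ≤ x ^ β := Real.one_le_rpow hmr hβ0.le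
    have hxg : 1 ≤ x ^ g := Real.one_le_rpow hmr hg0.le
    have hcR : 1 ≤ c * R := by
      have h1 : 1 / c ≤ R := e6
      rw [div_le_iff₀ hc0] at h1
      linarith
    have hZ1 : 1 ≤ Z := Nat.le_floor (by simpa using hcR)
    have hZle : (Z : ℝ) ≤ c * R := Nat.floor_le (by positivity)
    have hZlt : c * R < Z + 1 := Nat.lt_floor_add_one _
    have hKle : (K : ℝ) ≤ x ^ κ := Nat.floor_le (by positivity)
    have hKlt : x ^ κ < K + 1 := Nat.lt_floor_add_one _
    have hK2 : x ^ κ / 2 < K := by linarith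
    have hK0 : 0 < K := by
      have : (0 : ℝ) < K := lt_trans (by positivity) hK2
      exact_mod_cast this
    have hLle : (L : ℝ) ≤ x ^ β := Nat.floor_le (by positivity)
    have hLlt : x ^ β < L + 1 := Nat.lt_floor_add_one _
    -- conditions
    have c1 : C * (m : ℝ) ^ ((1 - 1 / (k : ℝ)) ^ t) + C < L + 1 := by
      calc C * (m : ℝ) ^ ((1 - 1 / (k : ℝ)) ^ t) + C ≤ C * x ^ g + C * x ^ g := by nlinarith
        _ = 2 * C * x ^ g := by ring
        _ ≤ x ^ β := e1
        _ < L + 1 := hLlt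
    have c2 : ∀ y, Z < y → 2 * L + 1 ≤ h y := by
      intro y hy
      have hy1 : 1 ≤ y := by omega
      have h1 : c * R ≤ y := by
        have : (Z : ℝ) + 1 ≤ y := by exact_mod_cast hy
        linarith
      have h2 : (c * R) ^ θ ≤ (y : ℝ) ^ θ := Real.rpow_le_rpow (by positivity) h1 hθ.le
      have h3 : (c * R) ^ θ = c ^ θ * x ^ (θ / k) := by
        rw [Real.mul_rpow hc0.le hR0.le, hR, ← Real.rpow_mul (by positivity)]
        congr 2
        field_simp
      have h4 : 3 * x ^ β ≤ c ^ θ * x ^ (θ / k) := by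
        have h5 : 3 / c ^ θ * x ^ β ≤ x ^ (θ / k) := e2
        rw [div_mul_eq_mul_div, div_le_iff₀ (by positivity)] at h5
        linarith
      have h6 : ((2 * L + 1 : ℕ) : ℝ) ≤ h y := by
        push_cast
        calc 2 * (L : ℝ) + 1 ≤ 3 * x ^ β := by linarith
          _ ≤ c ^ θ * x ^ (θ / k) := h4
          _ = (c * R) ^ θ := h3.symm
          _ ≤ (y : ℝ) ^ θ := h2
          _ ≤ h y := (hh y hy1).1
      exact_mod_cast h6
    have c3 : L < K ^ r := by
      have h1 : (L : ℝ) < (K : ℝ) ^ r := by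
        calc (L : ℝ) ≤ x ^ β := hLle
          _ < 2 * x ^ β := by linarith
          _ ≤ x ^ (κ * r) / 2 ^ r := by
              rw [le_div_iff₀ (by positivity)]
              calc 2 * x ^ β * 2 ^ r = 2 * 2 ^ r * x ^ β := by ring
                _ ≤ x ^ (κ * r) := e3
          _ = (x ^ κ / 2) ^ r := by
              rw [div_pow, Real.rpow_mul (by positivity), Real.rpow_natCast]
          _ ≤ (K : ℝ) ^ r := by gcongr
      exact_mod_cast h1
    have c4 : r * (2 * Z + 1) ^ k ≤ m := by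
      have h1 : ((r * (2 * Z + 1) ^ k : ℕ) : ℝ) ≤ m := by
        push_cast
        have hZ1r : (1 : ℝ) ≤ Z := by exact_mod_cast hZ1
        have h2 : (2 * (Z : ℝ) + 1) ^ k ≤ (3 * (c * R)) ^ k := by
          refine pow_le_pow_left₀ (by positivity) ?_ k
          linarith
        have h3 : (3 * (c * R)) ^ k = (3 * c) ^ k * x := by
          rw [← hRk]; ring
        have h4 : (3 * c) ^ k ≤ 1 / r := by
          have h5 : 3 * c = 1 / (r + 1) := by rw [hc]; field_simp
          rw [h5]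
          calc (1 / ((r : ℝ) + 1)) ^ k ≤ (1 / ((r : ℝ) + 1)) ^ 1 := by
                refine pow_le_pow_of_le_one (by positivity) ?_ (by omega)
                rw [div_le_one (by positivity)]; linarith
            _ = 1 / ((r : ℝ) + 1) := pow_one _
            _ ≤ 1 / r := one_div_le_one_div_of_le (by linarith) (by linarith)
        calc (r : ℝ) * (2 * (Z : ℝ) + 1) ^ k ≤ r * ((3 * c) ^ k * x) := by
              rw [← h3]; gcongr
          _ ≤ r * (1 / r * x) := by gcongr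
          _ = x := by field_simp
      exact_mod_cast h1
    refine (finite_bound P U hU hind k hk h hh' hunif t r C hC hG m L K Z c1 c2 hK0 c3 c4).trans ?_
    refine tail_bound r m K _ hK0 hm2 hm1 ?_
    -- the exponent
    set N := Z / (t + r) - 1 with hN
    have hN1 : c * R / q - 3 ≤ N := by
      have h1 : (Z : ℝ) / q < (Z / (t + r) : ℕ) + 1 := by
        have := Nat.lt_mul_div_succ Z (show 0 < t + r by omega)
        have h2 : (Z : ℝ) < q * ((Z / (t + r) : ℕ) + 1) := by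
          rw [hq]; exact_mod_cast this
        rw [div_lt_iff₀ hq0]; linarith
      have h3 : ((Z / (t + r) : ℕ) : ℝ) ≤ N + 1 := by
        have : Z / (t + r) ≤ N + 1 := by omega
        exact_mod_cast this
      have h4 : c * R / q < Z / q + 1 := by
        have h5 : c * R / q < (Z + 1) / q := by gcongr
        have h6 : ((Z : ℝ) + 1) / q ≤ Z / q + 1 := by
          rw [add_div]
          have : 1 / q ≤ 1 := by
            rw [div_le_one hq0]
            have : 1 ≤ t + r := by omega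
            rw [hq]
            exact_mod_cast this
          linarith
        linarith
      linarith
    have hN2 : c * R / (2 * q) ≤ N := by
      have h1 : 3 ≤ c * R / (2 * q) := by
        rw [le_div_iff₀ (by positivity)]
        have h2 : 6 * q / c ≤ R := e5
        rw [div_le_iff₀ hc0] at h2
        linarith
      have h3 : c * R / q = c * R / (2 * q) + c * R / (2 * q) := by
        field_simp; ring
      linarith
    have hK0r : (0 : ℝ) < K := by exact_mod_cast hK0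
    have h8 : 4 * Real.log m ≤ c / (8 * q) * x ^ (1 / (k : ℝ) - κ) := by
      have h9 : 4 * (8 * q / c) * Real.log m ≤ x ^ (1 / (k : ℝ) - κ) := e7
      calc 4 * Real.log m = c / (8 * q) * (4 * (8 * q / c) * Real.log m) := by
            field_simp
        _ ≤ c / (8 * q) * x ^ (1 / (k : ℝ) - κ) := by gcongr
    calc 4 * Real.log m ≤ c / (8 * q) * x ^ (1 / (k : ℝ) - κ) := h8
      _ = c * R / (2 * q) / (4 * x ^ κ) := by
          rw [hR, Real.rpow_sub hm0]
          field_simp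
          ring
      _ ≤ (N : ℝ) / (4 * K) := by gcongr
  have hbc := bc (μ := P) (f := fun n : ℕ => 1 / (n : ℝ) ^ 2)
    (Real.summable_one_div_nat_pow.mpr (by norm_num)) (fun n => by positivity) hev
  filter_upwards [hbc] with ω hω
  filter_upwards [hω] with m hm
  simpa using hm

end Pool.Agent.helper306_pert
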